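import Pool.Agent.K1H80.KA.Stm

/-! # The valuation of the forms `x_i y_j - x_j y_i` (project KA, piece TREE) -/

set_option autoImplicit false

namespace Pool.Agent.K1H37.KA

open MvPolynomial Pool.Agent.KA

theorem zpow_sum0 {L ι : Type} [Field L] {x : L} (hx : x ≠ 0) (s : Finset ι) (f : ι → ℤ) :
    x ^ (∑ e ∈ s, f e) = ∏ e ∈ s, x ^ f e := by
  classical
  induction s using Finset.induction_on with
  | empty => simp
  | insert i s hi ih => rw [Finset.sum_insert hi, Finset.prod_insert hi, zpow_add₀ hx, ih]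

theorem prod_fib {L ι : Type} [Field L] [Fintype ι] {n : ℕ} (u : Fin n → L) (hu : ∀ k, u k ≠ 0)
    (a : ι → Fin n) (c : ι → ℤ) :
    ∏ e, u (a e) ^ c e = ∏ k, u k ^ (∑ e, if a e = k then c e else 0) := by
  have h1 : ∀ k, u k ^ (∑ e, if a e = k then c e else 0) =
      ∏ e, if a e = k then u k ^ c e else 1 := by
    intro k
    rw [zpow_sum0 (hu k)]
    refine Finset.prod_congr rfl fun e _ => ?_
    split_ifs
    · rfl
    · exact zpow_zero _
  simp only [h1]
  rw [Finset.prod_comm]
  refine Finset.prod_congr rfl fun e _ => ?_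
  rw [Finset.prod_ite_eq]
  simp

/-- the subgroup of the functions with all vertex sums zero -/
def WW {ι : Type} [Fintype ι] {n : ℕ} (a b : ι → Fin n) : AddSubgroup (ι → ℤ) where
  carrier := {c | ∀ v, ∑ e, (if a e = v then c e else 0) + ∑ e, (if b e = v then c e else 0) = 0}
  zero_mem' := by
    intro v
    simp
  add_mem' := by
    intro c c' hc hc' v
    have h1 := hc v
    have h2 := hc' v
    have e1 : ∀ a : ι → Fin n, ∑ e, (if a e = v then (c + c') e else 0) =
        ∑ e, (if a e = v then c e else 0) + ∑ e, (if a e = v then c' e else 0) := by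
      intro a
      rw [← Finset.sum_add_distrib]
      refine Finset.sum_congr rfl fun e _ => ?_
      split_ifs
      · rfl
      · rfl
    rw [e1, e1]
    linarith
  neg_mem' := by
    intro c hc v
    have h1 := hc v
    have e1 : ∀ a : ι → Fin n, ∑ e, (if a e = v then (-c) e else 0) =
        -∑ e, (if a e = v then c e else 0) := by
      intro a
      rw [← Finset.sum_neg_distrib]
      refine Finset.sum_congr rfl fun e _ => ?_
      split_ifs
      · rfl
      · rfl
    rw [e1, e1]
    linarith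

theorem X_ne {F : Type} [Field F] {n : ℕ} {i j : Fin n} (hij : i ≠ j) :
    (X (i, 1) * X (j, 0) : MvPolynomial (Fin n × Fin 2) F) ≠ X (j, 1) * X (i, 0) := by
  intro h
  have h1 := congrArg (eval fun q : Fin n × Fin 2 =>
    if q = (i, 1) ∨ q = (j, 0) then (1 : F) else 0) h
  simp only [map_mul, eval_X] at h1
  have e1 : ¬ (((j, 1) : Fin n × Fin 2) = (i, 1) ∨ ((j, 1) : Fin n × Fin 2) = (j, 0)) := by
    rintro (h2 | h2)
    · exact hij (Prod.ext_iff.1 h2).1.symm
    · exact absurd (show (1 : Fin 2) = 0 from (Prod.ext_iff.1 h2).2) (by decide)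
  rw [if_neg e1] at h1
  simp at h1

theorem tree (hV : VALStm) (hU : ULTStm) : TREEStm := by
  intro F _ n ι _ a b hab hAI
  rcases Nat.eq_zero_or_pos n with hn | hn
  · subst hn
    refine ⟨[], List.nodup_nil, fun x => x.elim0, fun c _ _ => ?_⟩
    funext e
    exact (a e).elim0
  have hne : (Finset.univ : Finset (Fin n)).Nonempty := ⟨⟨0, hn⟩, Finset.mem_univ _⟩
  -- the family in the field
  let ψ : MvPolynomial (Fin n × Fin 2) F →ₐ[F] LL F n :=
    IsScalarTower.toAlgHom F (MvPolynomial (Fin n × Fin 2) F) (LL F n)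
  have hψ : Function.Injective ψ := IsFractionRing.injective (MvPolynomial (Fin n × Fin 2) F) (LL F n)
  obtain ⟨f, hf⟩ : ∃ f : ι → LL F n, f = fun e => ψ (fm F n (a e, b e)) := ⟨_, rfl⟩
  have hAI1 : AlgebraicIndependent F f := by
    rw [hf]
    exact hAI.map' hψ
  let φ := Fintype.equivFin ι
  have hAI2 : AlgebraicIndependent F (f ∘ φ.symm) := hAI1.comp _ φ.symm.injective
  obtain ⟨V, _, hVc⟩ := hV F (LL F n) (Fintype.card ι) _ hAI2
  have hkey : ∀ c : ι → ℤ, c ≠ 0 → V.valuation (∏ e, f e ^ c e) ≠ 1 := by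
    intro c hc
    have hex : ∃ i : Fin (Fintype.card ι), c (φ.symm i) ≠ 0 := by
      by_contra hcon
      push Not at hcon
      apply hc
      funext e
      have := hcon (φ e)
      rwa [Equiv.symm_apply_apply] at this
    obtain ⟨i, hi, hmin⟩ : ∃ i : Fin (Fintype.card ι), c (φ.symm i) ≠ 0 ∧
        ∀ j < i, c (φ.symm j) = 0 := by
      classical
      obtain ⟨i, hi1, hi2⟩ := (Finset.univ.filter fun i => c (φ.symm i) ≠ 0).exists_minimal
        (by
          obtain ⟨i, hi⟩ := hex
          exact ⟨i, by simpa using hi⟩)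
      refine ⟨i, by simpa using hi1, fun j hj => ?_⟩
      by_contra hcon
      have h3 := hi2 (y := j) (by simpa using hcon) hj.le
      exact absurd hj (not_lt.2 h3)
    have hprod : ∀ c' : ι → ℤ, ∏ i, (f ∘ φ.symm) i ^ c' (φ.symm i) = ∏ e, f e ^ c' e :=
      fun c' => Equiv.prod_comp φ.symm fun e => f e ^ c' e
    rcases lt_or_gt_of_ne hi with h1 | h1
    · have h2 := hVc (fun i => (-c) (φ.symm i)) ⟨i, by simpa using h1, fun j hj => by
        simpa using hmin j hj⟩
      rw [hprod (-c)] at h2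
      have h3 : ∏ e, f e ^ (-c) e = (∏ e, f e ^ c e)⁻¹ := by
        rw [← Finset.prod_inv_distrib]
        refine Finset.prod_congr rfl fun e _ => ?_
        rw [Pi.neg_apply, zpow_neg]
      rw [h3, map_inv₀] at h2
      intro h4
      rw [h4, inv_one] at h2
      exact lt_irrefl _ h2
    · have h2 := hVc (fun i => c (φ.symm i)) ⟨i, h1, hmin⟩
      rw [hprod c] at h2
      exact h2.ne
  -- the points
  obtain ⟨x, hx⟩ : ∃ x : Fin n → LL F n, x = fun k => ψ (X (k, 0)) := ⟨_, rfl⟩
  obtain ⟨y, hy⟩ : ∃ y : Fin n → LL F n, y = fun k => ψ (X (k, 1)) := ⟨_, rfl⟩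
  have hx0 : ∀ k, x k ≠ 0 := by
    intro k h
    rw [hx] at h
    have h1 : ψ (X (k, 0)) = ψ 0 := by rw [map_zero]; exact h
    exact X_ne_zero (R := F) (k, (0 : Fin 2)) (hψ h1)
  obtain ⟨s, hs⟩ : ∃ s : Fin n → LL F n, s = fun k => y k / x k := ⟨_, rfl⟩
  have hsne : ∀ i j, i ≠ j → s i ≠ s j := by
    intro i j hij h
    rw [hs] at h
    have h1 : y i * x j = y j * x i := (div_eq_div_iff (hx0 i) (hx0 j)).1 h
    rw [hx, hy] at h1
    have h2 : ψ (X (i, 1) * X (j, 0)) = ψ (X (j, 1) * X (i, 0)) := by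
      rw [map_mul, map_mul]
      exact h1
    exact X_ne hij (hψ h2)
  have hfe : ∀ e, f e = x (a e) * x (b e) * (s (b e) - s (a e)) := by
    intro e
    have h1 : f e = x (a e) * y (b e) - x (b e) * y (a e) := by
      rw [hf, hx, hy]
      simp only [fm, map_sub, map_mul]
    rw [h1, hs]
    have h2 := hx0 (a e)
    have h3 := hx0 (b e)
    field_simp
  obtain ⟨l, hl1, hl2, hl3⟩ := hU (Fin n) ι V.ValueGroup a b hab
    (fun i j => V.valuation (s i - s j))
    (fun i => by rw [sub_self, map_zero])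
    (fun i j => Valuation.map_sub_swap _ _ _)
    (fun i j hij => (Valuation.ne_zero_iff _).2 (sub_ne_zero.2 (hsne i j hij)))
    (fun i j k => by
      have h1 : s i - s k = (s i - s j) + (s j - s k) := by ring
      rw [h1]
      exact Valuation.map_add _ _ _)
    Finset.univ hne (WW a b) (by
      intro c hc h1
      by_contra hc0
      apply hkey c hc0
      simp only [Finset.mem_univ, and_self, if_true] at h1
      have h2 : ∏ e, f e ^ c e = ((∏ e, x (a e) ^ c e) * ∏ e, x (b e) ^ c e) *
          ∏ e, (s (b e) - s (a e)) ^ c e := by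
        rw [← Finset.prod_mul_distrib, ← Finset.prod_mul_distrib]
        refine Finset.prod_congr rfl fun e _ => ?_
        rw [hfe, mul_zpow, mul_zpow]
      have h3 : (∏ e, x (a e) ^ c e) * ∏ e, x (b e) ^ c e = 1 := by
        rw [prod_fib x hx0 a c, prod_fib x hx0 b c, ← Finset.prod_mul_distrib]
        refine Finset.prod_eq_one fun k _ => ?_
        rw [← zpow_add₀ (hx0 k), hc k, zpow_zero]
      rw [h2, h3, one_mul, map_prod, ← h1]
      refine Finset.prod_congr rfl fun e _ => ?_
      rw [map_zpow₀, Valuation.map_sub_swap])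
  refine ⟨l, hl1, fun k => ?_, fun c hc1 hc2 => hl3 c hc1 hc2⟩
  have h1 : k ∈ l.toFinset := by rw [hl2]; exact Finset.mem_univ k
  exact List.mem_toFinset.1 h1

end Pool.Agent.K1H37.KA
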